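import Pool.Agent.Helper74.DR.St

/-!
# Project DR, module EMB: change of bracket types.
-/

set_option autoImplicit false

namespace Pool.Agent.Helper66.DR

open Pool.Agent.Helper74.DR

theorem emb_cons {T : Type} (d : Bool → T) (σ : List (Option Bool)) (x : Option T) (σ' : List (Option T))
    (h : σ.map (Option.map d) = x :: σ') : ∃ x₀ σ₀, σ = x₀ :: σ₀ ∧ x = Option.map d x₀ ∧
      σ' = σ₀.map (Option.map d) := by
  cases σ with
  | nil => simp at h
  | cons x₀ σ₀ =>
    simp only [List.map_cons, List.cons.injEq] at h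
    exact ⟨x₀, σ₀, rfl, h.1.symm, h.2.symm⟩

theorem emb_tr {T : Type} (d : Bool → T) (hd : Function.Injective d)
    (w : List (Option (Bool × Bool))) : ∀ (σ : List (Option Bool)) (τ : List (Option T)),
    Tr (w.map (Option.map (Prod.map d id))) (σ.map (Option.map d)) τ ↔
      ∃ τ' : List (Option Bool), τ = τ'.map (Option.map d) ∧ Tr w σ τ' := by
  induction w with
  | nil =>
    intro σ τ
    rw [List.map_nil, tr_nil]
    constructor
    · rintro rfl
      exact ⟨σ, rfl, rfl⟩
    · rintro ⟨τ', rfl, h⟩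
      rw [tr_nil] at h
      rw [h]
  | cons y w ih =>
    intro σ τ
    rcases y with _ | ⟨t, b⟩
    · rw [List.map_cons, Option.map_none, tr_jk]
      have e1 : (none :: σ.map (Option.map d) : List (Option T)) = (none :: σ).map (Option.map d) := rfl
      rw [e1, ih]
      constructor
      · rintro (⟨τ', h1, h2⟩ | ⟨x, σ', h, h1⟩)
        · exact ⟨τ', h1, Or.inl h2⟩
        · obtain ⟨x₀, σ₀, rfl, -, rfl⟩ := emb_cons d σ x σ' h
          obtain ⟨τ', h2, h3⟩ := (ih σ₀ τ).1 h1
          exact ⟨τ', h2, Or.inr ⟨x₀, σ₀, rfl, h3⟩⟩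
      · rintro ⟨τ', h1, h2⟩
        rcases h2 with h2 | ⟨x₀, σ₀, rfl, h3⟩
        · exact Or.inl ⟨τ', h1, h2⟩
        · exact Or.inr ⟨Option.map d x₀, σ₀.map (Option.map d), rfl, (ih σ₀ τ).2 ⟨τ', h1, h3⟩⟩
    · cases b
      · rw [List.map_cons, Option.map_some, Prod.map_apply, id_eq, tr_cl]
        constructor
        · rintro ⟨x, σ', h, hx, h1⟩
          obtain ⟨x₀, σ₀, rfl, rfl, rfl⟩ := emb_cons d σ x σ' h
          obtain ⟨τ', h2, h3⟩ := (ih σ₀ τ).1 h1
          refine ⟨τ', h2, x₀, σ₀, rfl, ?_, h3⟩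
          rcases x₀ with _ | s
          · exact Or.inl rfl
          · rcases hx with hx | hx
            · simp at hx
            · simp only [Option.map_some, Option.some.injEq] at hx
              exact Or.inr (by rw [hd hx])
        · rintro ⟨τ', h1, x₀, σ₀, rfl, hx, h3⟩
          refine ⟨Option.map d x₀, σ₀.map (Option.map d), rfl, ?_, (ih σ₀ τ).2 ⟨τ', h1, h3⟩⟩
          rcases hx with rfl | rfl
          · exact Or.inl rfl
          · exact Or.inr rfl
      · rw [List.map_cons, Option.map_some, Prod.map_apply, id_eq, tr_op]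
        have e1 : (some (d t) :: σ.map (Option.map d) : List (Option T)) = (some t :: σ).map (Option.map d) := rfl
        rw [e1, ih]
        rfl

theorem hEMB (hTRE : StTRE) : StEMB := by
  intro T d hd w
  haveI : Nonempty T := ⟨d true⟩
  rw [hTRE Bool w, hTRE T]
  have h := emb_tr d hd w [] []
  rw [List.map_nil] at h
  rw [h]
  constructor
  · intro h1
    exact ⟨[], rfl, h1⟩
  · rintro ⟨τ', h1, h2⟩
    have h3 : τ' = [] := List.map_eq_nil_iff.mp h1.symm
    rw [h3] at h2
    exact h2

end Pool.Agent.Helper66.DR
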